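import Pool.Agent.Lib.MP_e1f7e2_al.FA.Iface

set_option autoImplicit false

/-!
# FA, module ECORE
-/

open MulOpposite Pool.Agent.Lib.MP_e1f7e2_al.FA

namespace Pool.Agent.Lib.MP_e1f7e2_al.FA.H58

/-! ### Lengths -/

lemma exists_len {K : Type*} [Field K] {n : ℕ} (f : A K n) : ∃ m : ℕ, Len m f := by
  refine ⟨f.coeff.support.sup (fun u => u.toList.length), fun u hu => ?_⟩
  exact Finset.le_sup (f := fun u : Wd n => u.toList.length) hu

lemma exists_len2 {K : Type*} [Field K] {n : ℕ} (f : A2 K n) : ∃ m : ℕ, Len2 m f := by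
  refine ⟨f.coeff.support.sup (fun p => p.1.toList.length) ⊔
    f.coeff.support.sup (fun p => p.2.unop.toList.length), fun p hp => ⟨?_, ?_⟩⟩
  · exact (Finset.le_sup (f := fun p : Wd n × (Wd n)ᵐᵒᵖ => p.1.toList.length) hp).trans le_sup_left
  · exact (Finset.le_sup (f := fun p : Wd n × (Wd n)ᵐᵒᵖ => p.2.unop.toList.length) hp).trans
      le_sup_right

lemma Len.mono {K : Type*} [Field K] {n : ℕ} {f : A K n} {m m' : ℕ} (h : Len m f) (hm : m ≤ m') :
    Len m' f := fun u hu => (h u hu).trans hm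

lemma Len2.mono {K : Type*} [Field K] {n : ℕ} {f : A2 K n} {m m' : ℕ} (h : Len2 m f)
    (hm : m ≤ m') : Len2 m' f := fun u hu => ⟨(h u hu).1.trans hm, (h u hu).2.trans hm⟩

section

variable {K : Type*} [Field K] {w : Fin 3 → ℝ}

lemma pos_of_nc (hd : DegFacts K w) {f g : A K 3} (h : f * g ≠ g * f) : 0 < dg w f := by
  rcases (hd.nn f).lt_or_eq with h0 | h0
  · exact h0
  · exfalso
    obtain ⟨c, rfl⟩ := hd.of_zero f h0.symm
    apply h
    rw [smul_mul_assoc, one_mul, mul_smul_comm, mul_one]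

lemma top_one (hd : DegFacts K w) (ht : TopFacts K w) : top w (1 : A K 3) = 1 := by
  apply ht.self
  intro u hu
  have h1 : dg w (1 : A K 3) = 0 := by
    have := hd.const (1 : K)
    rwa [one_smul] at this
  rw [h1]
  have hu' : u = 1 := by
    have h2 : (1 : A K 3).coeff u ≠ 0 := Finsupp.mem_support_iff.1 hu
    rw [MonoidAlgebra.one_def] at h2
    by_contra hne
    apply h2
    simp [MonoidAlgebra.coeff_single, Finsupp.single_apply, Ne.symm hne]
  rw [hu']
  simp [wt]

/-- (NC): both members are nonconstant -/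
lemma nc_pos (hd : DegFacts K w) (ht : TopFacts K w) (htr : TraceStatement K w) {f g : A K 3}
    (h : f * g ≠ g * f) : 0 < dg w (f * g - g * f) := by
  rcases (hd.nn (f * g - g * f)).lt_or_eq with h0 | h0
  · exact h0
  · exfalso
    obtain ⟨c, hc⟩ := hd.of_zero _ h0.symm
    apply htr f g h
    rw [hc, ht.smul, top_one hd ht, smul_mul_assoc, one_mul, mul_smul_comm, mul_one]

lemma nc_aux (hd : DegFacts K w) (ht : TopFacts K w) (htr : TraceStatement K w) {f g : A K 3}
    (h : f * g ≠ g * f) : E w (f * g - g * f) g = E w f g + dg w g := by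
  have h1 : ¬ Com w (f * g - g * f) g := by
    rw [ht.com _ _ (nc_pos hd ht htr h) (pos_of_nc hd (Ne.symm h))]
    exact htr f g h
  unfold Com at h1
  push Not at h1
  refine le_antisymm ?_ h1
  unfold E
  refine (hd.sub_le _ _).trans (max_le ?_ ?_)
  · exact hd.mul_le _ _
  · refine (hd.mul_le _ _).trans ?_
    rw [add_comm]

/-- the equality `E* = E` for large `N` -/
lemma key (hd : DegFacts K w) (ht : TopFacts K w)
    (hb : ∀ (N : ℕ) [NeZero N], BetaFacts K w N) (htb : TopbStatement K w)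
    (hs : SpecStatement K w) (htr : TraceStatement K w) {f g : A K 3} (h : f * g ≠ g * f) :
    ∃ N0 : ℕ, ∀ (N : ℕ) [NeZero N], N0 ≤ N → (∃ i, bet N f g i ≠ 0) ∧ Es N w f g = E w f g := by
  have pf := pos_of_nc hd h
  have pg := pos_of_nc hd (Ne.symm h)
  have ph := nc_pos hd ht htr h
  obtain ⟨m1, h1⟩ := exists_len f
  obtain ⟨m2, h2⟩ := exists_len g
  obtain ⟨m3, h3⟩ := exists_len (f * g - g * f)
  obtain ⟨m4, h4⟩ := exists_len (top w (f * g - g * f) * top w g)
  refine ⟨m1 + m2 + m3 + m4, fun N _ hN => ?_⟩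
  have l1 : Len N f := Len.mono h1 (by omega)
  have l2 : Len N g := Len.mono h2 (by omega)
  have l3 : Len N (f * g - g * f) := Len.mono h3 (by omega)
  have l4 : Len N (top w (f * g - g * f) * top w g) := Len.mono h4 (by omega)
  have s1 : ∃ i, bet N (top w (f * g - g * f)) (top w g) i ≠ 0 := by
    by_contra hcon
    push Not at hcon
    exact htr f g h (hs N _ _ (ht.hom _) (ht.hom _) (by rwa [ht.dgt]) (by rwa [ht.dgt]) l4 hcon)
  obtain ⟨⟨i, hi⟩, s2⟩ := htb N (f * g - g * f) g ph pg l3 l2 s1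
  have s3 : ∃ i, bet N f g i ≠ 0 := by
    refine ⟨i, fun h0 => hi ?_⟩
    rw [(hb N).com, h0, mul_zero, neg_zero]
  refine ⟨s3, ?_⟩
  have s4 := (hb N).vcom f g pf pg l1 l2 s3
  rw [s2] at s4
  unfold E
  linarith

/-- commuting elements have `bet = 0` -/
lemma bet_comm (hd : DegFacts K w) (hdb : DegbFacts K w) (hc : ChainFacts K 3)
    (hr : ∀ (N : ℕ) [NeZero N], RhoFacts K w N)
    (hb : ∀ (N : ℕ) [NeZero N], BetaFacts K w N) {f g : A K 3} (h : f * g = g * f)
    (pg : 0 < dg w g) (N : ℕ) [NeZero N] (lg : Len N g) (i : Fin 3) : bet N f g i = 0 := by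
  have r0 : rho N (0 : A2 K 3) = 0 := by
    have := (hr N).smul 0 0
    rwa [zero_smul, zero_smul] at this
  have h1 : bet N (0 : A K 3) g i = 0 := by
    unfold bet SS
    have e1 : dX i (0 : A K 3) = 0 := by
      have := hc.smul i 0 0
      rwa [zero_smul, zero_smul] at this
    have e2 : dl (0 : A K 3) = 0 := by
      have := hdb.dlc 0
      rwa [zero_smul] at this
    rw [e1, e2, r0, smul_zero, zero_mul, zero_mul, sub_zero]
  have h2 := (hb N).com f g i
  rw [h, sub_self, h1] at h2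
  have h3 : SS N g * bet N f g i = 0 := by
    rw [eq_comm, neg_eq_zero] at h2
    exact h2
  have h4 : (SS N g).det • bet N f g i = 0 := by
    rw [← Matrix.one_mul (bet N f g i), ← Matrix.smul_mul, ← Matrix.adjugate_mul, Matrix.mul_assoc,
      h3, Matrix.mul_zero]
  exact (smul_eq_zero.1 h4).resolve_left ((hb N).det g pg lg)

/-- `dl` and lengths -/
lemma len2_dl (hdb : DegbFacts K w) {N : ℕ} {g : A K 3} (lg : Len N g) : Len2 N (dl g) := by
  have i1 : (inr (1 : A K 3) : A2 K 3) = 1 := hdb.inrone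
  have e1 : ∀ u v : Wd 3, (inl g : A2 K 3).coeff (u, op v) =
      g.coeff u * (1 : A K 3).coeff v := by
    intro u v
    rw [← hdb.cf g 1 u v, tn, i1, mul_one]
  have e2 : ∀ u v : Wd 3, (inr g : A2 K 3).coeff (u, op v) =
      (1 : A K 3).coeff u * g.coeff v := by
    intro u v
    rw [← hdb.cf 1 g u v, tn, map_one, one_mul]
  have hone : ∀ u : Wd 3, (1 : A K 3).coeff u ≠ 0 → u = 1 := by
    intro u h2
    rw [MonoidAlgebra.one_def] at h2
    by_contra hne
    apply h2
    simp [MonoidAlgebra.coeff_single, Finsupp.single_apply, Ne.symm hne]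
  rintro ⟨u, v⟩ hp
  induction v using MulOpposite.rec' with
  | _ v =>
    have h1 : (dl g).coeff (u, op v) ≠ 0 := Finsupp.mem_support_iff.1 hp
    have h2 : (dl g).coeff (u, op v) = (inl g : A2 K 3).coeff (u, op v) -
        (inr g : A2 K 3).coeff (u, op v) := rfl
    rw [h2, e1, e2] at h1
    show u.toList.length ≤ N ∧ v.toList.length ≤ N
    by_cases hu : (1 : A K 3).coeff v = 0
    · rw [hu, mul_zero, zero_sub, neg_ne_zero] at h1
      have a1 := hone u (left_ne_zero_of_mul h1)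
      have a2 := lg v (Finsupp.mem_support_iff.2 (right_ne_zero_of_mul h1))
      rw [a1]
      exact ⟨by simp, a2⟩
    · have a1 := hone v hu
      rw [a1]
      refine ⟨?_, by simp⟩
      by_cases hv : g.coeff u = 0
      · rw [hv, zero_mul, zero_sub, neg_ne_zero] at h1
        have a2 := hone u (left_ne_zero_of_mul h1)
        rw [a2]
        simp
      · exact lg u (Finsupp.mem_support_iff.2 hv)

/-- `|g| ≤ |det S_g|` -/
lemma le_det (hdb : DegbFacts K w)
    (hr : ∀ (N : ℕ) [NeZero N], RhoFacts K w N) (hn : NormStatement K w)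
    (hb : ∀ (N : ℕ) [NeZero N], BetaFacts K w N) {g : A K 3}
    (pg : 0 < dg w g) (N : ℕ) [NeZero N] (lg : Len N g) : dg w g ≤ dR w (SS N g).det := by
  have hdet := (hb N).det g pg lg
  have h1 : SS N g * (SS N g).adjugate = (SS N g).det • 1 := Matrix.mul_adjugate _
  have hone : (1 : MM K N) ≠ 0 := one_ne_zero
  have hadj : (SS N g).adjugate ≠ 0 := by
    intro h0
    rw [h0, Matrix.mul_zero] at h1
    exact (smul_ne_zero hdet hone) h1.symm
  have hdl : dl g ≠ 0 := by
    intro h0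
    have := hdb.dl' g
    rw [h0, hdb.zero] at this
    linarith
  have h2 := (hn N (dl g) (SS N g).adjugate hdl hadj (len2_dl hdb lg)).2
  have h3 : rho N (dl g) * (SS N g).adjugate = (SS N g).det • 1 := h1
  rw [h3, (hr N).msmul _ _ hdet hone, (hr N).rmone, add_zero, hdb.dl'] at h2
  rw [h2]
  have := (hr N).mnn (SS N g).adjugate
  linarith

/-- `E* ≤ E` -/
lemma es_le (hd : DegFacts K w) (hdb : DegbFacts K w) (hc : ChainFacts K 3) (ht : TopFacts K w)
    (hr : ∀ (N : ℕ) [NeZero N], RhoFacts K w N) (hn : NormStatement K w)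
    (hb : ∀ (N : ℕ) [NeZero N], BetaFacts K w N) (htb : TopbStatement K w)
    (hs : SpecStatement K w) (htr : TraceStatement K w) {f g : A K 3} (pg : 0 < dg w g) :
    ∃ N0 : ℕ, ∀ (N : ℕ) [NeZero N], N0 ≤ N → Es N w f g ≤ E w f g := by
  by_cases h : f * g = g * f
  · obtain ⟨m, hm⟩ := exists_len g
    refine ⟨m, fun N _ hN => ?_⟩
    have lg : Len N g := Len.mono hm hN
    have h1 : ∀ i, bet N f g i = 0 := bet_comm hd hdb hc hr hb h pg N lg
    have h2 := le_det hdb hr hn hb pg N lg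
    unfold Es E
    simp only [h1, smul_zero, (hr N).mzero, Finset.sup'_const]
    rw [h, sub_self, hd.zero]
    linarith
  · obtain ⟨N0, h0⟩ := key hd ht hb htb hs htr h
    exact ⟨N0, fun N _ hN => (h0 N hN).2.le⟩

lemma v2_aux (hd : DegFacts K w) (hdb : DegbFacts K w) (hc : ChainFacts K 3) (ht : TopFacts K w)
    (hr : ∀ (N : ℕ) [NeZero N], RhoFacts K w N) (hn : NormStatement K w)
    (hb : ∀ (N : ℕ) [NeZero N], BetaFacts K w N) (htb : TopbStatement K w)
    (hs : SpecStatement K w) (htr : TraceStatement K w) (f g : A K 3) (P : A K 2)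
    (h : f * g ≠ g * f) (hT : evl2 ![f, g] (dX 0 P) ≠ 0) :
    E w (ev P f g) g = dg2 w (evl2 ![f, g] (dX 0 P)) + E w f g := by
  have pf := pos_of_nc hd h
  have pg := pos_of_nc hd (Ne.symm h)
  obtain ⟨N0, k0⟩ := key hd ht hb htb hs htr h
  obtain ⟨m1, h1⟩ := exists_len f
  obtain ⟨m2, h2⟩ := exists_len g
  obtain ⟨m3, h3⟩ := exists_len2 (evl2 ![f, g] (dX 0 P))
  have hnc : ev P f g * g ≠ g * ev P f g := by
    intro hcom
    let N := N0 + m1 + m2 + m3 + 1
    haveI : NeZero N := ⟨by omega⟩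
    obtain ⟨⟨i, hi⟩, -⟩ := k0 N (by omega)
    have a1 := bet_comm hd hdb hc hr hb hcom pg N (Len.mono h2 (by omega)) i
    rw [(hb N).ch] at a1
    exact (hn N _ _ hT hi (Len2.mono h3 (by omega))).1 a1
  obtain ⟨N1, k1⟩ := key hd ht hb htb hs htr hnc
  let N := N0 + N1 + m1 + m2 + m3 + 1
  haveI : NeZero N := ⟨by omega⟩
  obtain ⟨s0, e0⟩ := k0 N (by omega)
  obtain ⟨s1, e1⟩ := k1 N (by omega)
  have := (hb N).v2 f g P pf pg (Len.mono h1 (by omega)) (Len.mono h2 (by omega))
    (Len2.mono h3 (by omega)) hT s0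
  rw [e1, e0] at this
  exact this

lemma ult_aux (hd : DegFacts K w) (hdb : DegbFacts K w) (hc : ChainFacts K 3) (ht : TopFacts K w)
    (hr : ∀ (N : ℕ) [NeZero N], RhoFacts K w N) (hn : NormStatement K w)
    (hb : ∀ (N : ℕ) [NeZero N], BetaFacts K w N) (htb : TopbStatement K w)
    (hs : SpecStatement K w) (htr : TraceStatement K w) (u v z : A K 3)
    (h : u * z ≠ z * u) (pv : 0 < dg w v) : min (Df w u v) (Df w v z) ≤ Df w u z := by
  have pu := pos_of_nc hd h
  have pz := pos_of_nc hd (Ne.symm h)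
  obtain ⟨N0, k0⟩ := key hd ht hb htb hs htr h
  obtain ⟨N1, k1⟩ := es_le hd hdb hc ht hr hn hb htb hs htr (f := u) pv
  obtain ⟨N2, k2⟩ := es_le hd hdb hc ht hr hn hb htb hs htr (f := v) pz
  obtain ⟨m1, h1⟩ := exists_len u
  obtain ⟨m2, h2⟩ := exists_len v
  obtain ⟨m3, h3⟩ := exists_len z
  let N := N0 + N1 + N2 + m1 + m2 + m3 + 1
  haveI : NeZero N := ⟨by omega⟩
  obtain ⟨s0, e0⟩ := k0 N (by omega)
  have e1 := k1 N (by omega)
  have e2 := k2 N (by omega)
  have h4 := (hb N).v3 u v z pu pv pz (Len.mono h1 (by omega)) (Len.mono h2 (by omega))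
    (Len.mono h3 (by omega)) s0
  rw [e0] at h4
  unfold Df
  rcases le_max_iff.1 h4 with h5 | h5
  · refine (min_le_left _ _).trans ?_
    linarith
  · refine (min_le_right _ _).trans ?_
    linarith

/-! ### exchange of the letters -/

lemma evl_xx {n : ℕ} {B : Type*} [Ring B] [Algebra K B] (F : Fin n → B) (i : Fin n) :
    evl F (xx i : A K n) = F i := by
  unfold evl xx
  rw [MonoidAlgebra.lift_single, one_smul, FreeMonoid.lift_eval_of]

lemma ev_ev (P : A K 2) (f g : A K 3) : ev (ev P (xx 1) (xx 0)) g f = ev P f g := by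
  have h : (evl (K := K) ![g, f]).comp (evl (K := K) ![xx 1, xx 0]) = evl (K := K) ![f, g] := by
    apply MonoidAlgebra.algHom_ext'
    · apply FreeMonoid.hom_eq
      intro i
      have h1 : evl (K := K) ![g, f] (evl (K := K) ![xx 1, xx 0] (xx i)) =
          evl (K := K) ![f, g] (xx i) := by
        rw [evl_xx, evl_xx]
        fin_cases i
        · exact evl_xx (K := K) ![g, f] 1
        · exact evl_xx (K := K) ![g, f] 0
      exact h1
    · exact Subsingleton.elim _ _
  exact congrArg (fun φ : A K 2 →ₐ[K] A K 3 => φ P) h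

lemma evl2_single {n m : ℕ} (F : Fin m → A K n) (p : Wd m × (Wd m)ᵐᵒᵖ) (c : K) :
    evl2 F (MonoidAlgebra.single p c) = c • tn (evl F (MonoidAlgebra.single p.1 (1 : K)))
      (evl F (MonoidAlgebra.single p.2.unop (1 : K))) := by
  unfold evl2
  rw [MonoidAlgebra.coeff_single, Finsupp.sum_single_index]
  rw [zero_smul]

lemma evl2_evl2 (hc2 : ChainFacts K 2) (hc : ChainFacts K 3) (f g : A K 3) (S : A2 K 2) :
    evl2 ![g, f] (evl2 ![xx 1, xx 0] S) = evl2 ![f, g] S := by
  induction S using MonoidAlgebra.induction_linear with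
  | zero =>
    have z2 : (evl2 ![xx 1, xx 0] (0 : A2 K 2) : A2 K 2) = 0 := by
      have := hc2.e2smul (xx 1) (xx 0) 0 0
      rwa [zero_smul, zero_smul] at this
    have z3 : ∀ f g : A K 3, evl2 ![f, g] (0 : A2 K 2) = 0 := by
      intro f g
      have := hc.e2smul f g 0 0
      rwa [zero_smul, zero_smul] at this
    rw [z2, z3, z3]
  | add S T hS hT => rw [hc2.e2add, hc.e2add, hS, hT, hc.e2add]
  | single p c =>
    rw [evl2_single, hc.e2smul, hc.e2tn, evl2_single]
    have e := ev_ev (K := K) (MonoidAlgebra.single p.1 (1 : K)) f g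
    have e' := ev_ev (K := K) (MonoidAlgebra.single p.2.unop (1 : K)) f g
    unfold ev at e e' ⊢
    rw [e, e']

lemma v2'_aux (hd : DegFacts K w) (hdb : DegbFacts K w) (hc2 : ChainFacts K 2)
    (hc : ChainFacts K 3) (ht : TopFacts K w)
    (hr : ∀ (N : ℕ) [NeZero N], RhoFacts K w N) (hn : NormStatement K w)
    (hb : ∀ (N : ℕ) [NeZero N], BetaFacts K w N) (htb : TopbStatement K w)
    (hs : SpecStatement K w) (htr : TraceStatement K w) (f g : A K 3) (P : A K 2)
    (h : f * g ≠ g * f) (hT : evl2 ![f, g] (dX 1 P) ≠ 0) :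
    E w (ev P f g) f = dg2 w (evl2 ![f, g] (dX 1 P)) + E w f g := by
  have e1 : dX 0 (ev P (xx 1) (xx 0) : A K 2) = evl2 ![xx 1, xx 0] (dX 1 P) := by
    rw [hc2.chain 0 P (xx 1) (xx 0), hc2.xx', hc2.xx', if_neg (by decide), if_pos rfl, mul_zero,
      zero_add, mul_one]
  have e2 : evl2 ![g, f] (dX 0 (ev P (xx 1) (xx 0) : A K 2)) = evl2 ![f, g] (dX 1 P) := by
    rw [e1, evl2_evl2 hc2 hc]
  have h1 := v2_aux hd hdb hc ht hr hn hb htb hs htr g f (ev P (xx 1) (xx 0)) (Ne.symm h)
    (by rwa [e2])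
  rw [ev_ev, e2] at h1
  rw [h1]
  congr 1
  unfold E
  exact hd.sub_comm _ _

/-- **ECORE.** -/
theorem ecore (K : Type*) [Field K] (w : Fin 3 → ℝ) (hd : DegFacts K w) (hdb : DegbFacts K w)
    (hc2 : ChainFacts K 2) (hc : ChainFacts K 3) (ht : TopFacts K w)
    (hr : ∀ (N : ℕ) [NeZero N], RhoFacts K w N) (hn : NormStatement K w)
    (hb : ∀ (N : ℕ) [NeZero N], BetaFacts K w N) (htb : TopbStatement K w)
    (hs : SpecStatement K w) (htr : TraceStatement K w) : ECore K w where
  nc _ _ h := nc_aux hd ht htr h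
  ult u v z h pv := ult_aux hd hdb hc ht hr hn hb htb hs htr u v z h pv
  v2 f g P h hT := v2_aux hd hdb hc ht hr hn hb htb hs htr f g P h hT
  v2' f g P h hT := v2'_aux hd hdb hc2 hc ht hr hn hb htb hs htr f g P h hT

end

end Pool.Agent.Lib.MP_e1f7e2_al.FA.H58
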